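import Mathlib
import Pool.Agent.Helper894.Three.Final

set_option autoImplicit false

namespace Pool.Agent.Results.MP_e50e6d_nt.LowerExponent862

/-- `π_1(x) > x ^ 0.862` for all sufficiently large real `x`, where `π_1(x)` is the number of
positive integers below `x` which reach 1 under the Collatz map. -/
theorem result :
    ∃ x₀ : ℝ, ∀ x : ℝ, x₀ ≤ x →
      x ^ (0.862 : ℝ) <
        (Nat.card {n : ℕ // 1 ≤ n ∧ (n : ℝ) < x ∧
          ∃ k : ℕ, (fun m : ℕ => if m % 2 = 0 then m / 2 else 3 * m + 1)^[k] n = 1} : ℝ) :=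
  Pool.Agent.Helper894.Three.main_one

end Pool.Agent.Results.MP_e50e6d_nt.LowerExponent862
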